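import Mathlib
import Pool.Agent.H469R2.NK.KL

/-!
MP_e4c747_an (cubic averages in rigid uniquely ergodic systems): the two exponential sum statements.
Here `e x = exp (2 π i x)`.
-/

set_option autoImplicit false

namespace Pool.Agent.R205.CU

open Finset
open Pool.Agent.H469R2.NK (e)

/-- Averaged Weyl inequality: for blocks of length `M = ⌈Q^(3/7)⌉` and the `Q^(1/5)/ε` frequencies
`k b / Q` the mean squares of the cubic sums are small in total. -/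
def StmtB : Prop := ∀ ε κ : ℝ, 0 < ε → 0 < κ → ∃ Q₀ : ℕ, ∀ Q b a K M : ℕ, Q₀ ≤ Q → Nat.Coprime b Q →
  (K : ℝ) ≤ (Q : ℝ) ^ (1 / 5 : ℝ) / ε → M = ⌈(Q : ℝ) ^ (3 / 7 : ℝ)⌉₊ →
  ∑ k ∈ Ico 1 K, ‖∑ i ∈ range M, e (((k * b * (a + i) ^ 3 : ℕ) : ℝ) / (Q : ℝ))‖ ^ 2 ≤ κ * (M : ℝ) ^ 2

/-- The second derivative test: if `b` is the inverse mod `Q` of a very small `q`, the same holds for the
long blocks `[a, N)` with `ε Q^(2/5) ≤ N ≤ Q^(3/7)/ε`. -/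
def StmtD : Prop := ∀ ε κ : ℝ, 0 < ε → 0 < κ → ∃ Q₀ : ℕ, ∀ q Q b a K N : ℕ, Q₀ ≤ Q → 1 ≤ q →
  (q : ℝ) ≤ (Q : ℝ) ^ (1 / 8 : ℝ) → q * b ≡ 1 [MOD Q] →
  (K : ℝ) ≤ (Q : ℝ) ^ (1 / 5 : ℝ) / ε → ε * (Q : ℝ) ^ (2 / 5 : ℝ) ≤ N → (N : ℝ) ≤ (Q : ℝ) ^ (3 / 7 : ℝ) / ε →
  ε * N ≤ a → a ≤ N →
  ∑ k ∈ Ico 1 K, ‖∑ i ∈ Ico a N, e (((k * b * i ^ 3 : ℕ) : ℝ) / (Q : ℝ))‖ ^ 2 ≤ κ * (N : ℝ) ^ 2

end Pool.Agent.R205.CU
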